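import Pool.Agent.COS.Stmts

/-!
# Squad COS, row MAI: the main theorem from SUM, MCH, WRD
-/

namespace Pool.Agent.COS.H79

open Pool.Agent.PAR Pool.Agent.COS

/-- an accepted certificate has the prescribed length -/
theorem val_length (V : Word × Word → Bool) (n : ℕ) (x c : Word) (h : val V n x c = true) :
    c.length = 6 * (n * n) + 2 * ((n * n) * (n * n)) := by
  unfold val at h
  simp only [Bool.and_eq_true, decide_eq_true_eq] at h
  exact h.1.1.1.1.1

theorem mai (h₁ : SumStmt) (h₂ : MchStmt) (h₃ : WrdStmt) : MaiStmt := by
  intro L V d hV hL hH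
  refine ⟨fun z => val V (d.eval z.1.length) z.1 z.2,
    6 * (d * d) + 2 * ((d * d) * (d * d)), h₂ V d hV, fun x => ?_⟩
  have hw : witnesses (fun z => val V (d.eval z.1.length) z.1 z.2)
      (6 * (d * d) + 2 * ((d * d) * (d * d))) x =
      {c : Word | val V (d.eval x.length) x c = true} := by
    ext c
    constructor
    · intro h
      exact h.2
    · intro h
      refine ⟨?_, h⟩
      have h' : val V (d.eval x.length) x c = true := h
      have hl := val_length V _ x c h'
      simp only [Polynomial.eval_add, Polynomial.eval_mul, Polynomial.eval_ofNat]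
      exact hl.le
  rw [hw, h₃ V (d.eval x.length) x]
  rw [hL x]
  exact (h₁ (d.eval x.length) {A : Gr (d.eval x.length) | V (x, enc A.1) = true} (hH x)).symm

end Pool.Agent.COS.H79
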